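import Pool.Agent.BLP.StmtsM

/-!
# Squad BLP, row M_XIN: independence of the levels
-/

set_option autoImplicit false

namespace Pool.Agent.BLP.H1

open MeasureTheory ProbabilityTheory Filter Topology Finset
open scoped ENNReal

noncomputable section

/-- the rational points of the cell `[j, j + 1]` -/
abbrev Rt (j : ℕ) : Type := {u : ℚ // (j : ℝ) ≤ u ∧ (u : ℝ) ≤ j + 1}

/-- the oscillation as a function of the values at the rational points -/
def osQ (j : ℕ) (v : ℚ → ℝ) : ℝ := ⨆ u : Rt j, |v u - v j|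

theorem os_eq {b : Env} (hb : Cts b) (r : ℤ) (j : ℕ) :
    Os b r j = osQ j (fun q : ℚ => b r q) := by
  have hcont : Continuous fun u : ℝ => |b r u - b r j| := ((hb r).sub continuous_const).abs
  have hbdd : BddAbove ((fun u => |b r u - b r j|) '' Set.Icc (j : ℝ) (j + 1)) :=
    isCompact_Icc.bddAbove_image hcont.continuousOn
  have hbddQ : BddAbove (Set.range fun u : Rt j =>
      |b r ((u : ℚ) : ℝ) - b r (((j : ℚ)) : ℝ)|) := by
    obtain ⟨C, hC⟩ := hbdd
    refine ⟨C, ?_⟩
    rintro _ ⟨u, rfl⟩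
    have h1 := hC ⟨((u : ℚ) : ℝ), ⟨u.2.1, u.2.2⟩, rfl⟩
    simpa using h1
  have hne : Nonempty (Rt j) := ⟨⟨j, by simp, by simp⟩⟩
  unfold Os osQ
  apply le_antisymm
  · apply csSup_le
    · exact ⟨_, ⟨j, ⟨le_rfl, by linarith⟩, rfl⟩⟩
    · rintro _ ⟨u, hu, rfl⟩
      obtain ⟨S, hS⟩ : ∃ S : ℝ, S = ⨆ u : Rt j, |b r ((u : ℚ) : ℝ) - b r (((j : ℚ)) : ℝ)| :=
        ⟨_, rfl⟩
      have hcl : IsClosed {u : ℝ | |b r u - b r j| ≤ S} := isClosed_le hcont continuous_const
      have h1 : Set.Ioo (j : ℝ) (j + 1) ∩ Set.range ((↑) : ℚ → ℝ) ⊆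
          {u : ℝ | |b r u - b r j| ≤ S} := by
        rintro _ ⟨h2, q, rfl⟩
        have h3 := le_ciSup hbddQ ⟨q, h2.1.le, h2.2.le⟩
        rw [← hS] at h3
        simpa using h3
      have h2 : Set.Ioo (j : ℝ) (j + 1) ⊆ {u : ℝ | |b r u - b r j| ≤ S} :=
        (Rat.isDenseEmbedding_coe_real.dense.open_subset_closure_inter isOpen_Ioo).trans
          (closure_minimal h1 hcl)
      have h3 : closure (Set.Ioo (j : ℝ) (j + 1)) = Set.Icc (j : ℝ) (j + 1) :=
        closure_Ioo (by linarith)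
      have h4 : u ∈ {u : ℝ | |b r u - b r j| ≤ S} := by
        apply closure_minimal h2 hcl
        rw [h3]
        exact hu
      rw [← hS]
      exact h4
  · apply ciSup_le
    intro u
    have h1 := le_csSup hbdd ⟨((u : ℚ) : ℝ), ⟨u.2.1, u.2.2⟩, rfl⟩
    simpa using h1

theorem osQ_meas (j : ℕ) : Measurable (osQ j) := by
  unfold osQ
  refine Measurable.iSup fun u => ?_
  have h1 : Measurable fun v : ℚ → ℝ => v (u : ℚ) := measurable_pi_apply _
  have h2 : Measurable fun v : ℚ → ℝ => v (j : ℚ) := measurable_pi_apply _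
  exact continuous_abs.measurable.comp (h1.sub h2)

/-- the contribution of a level as a function of the values at the rational points -/
def xcQ (i i' : ℕ) (v : ℚ → ℝ) : ℝ := v i' - v i + osQ i v + osQ i' v

theorem xc_eq {b : Env} (hb : Cts b) (r : ℤ) (i i' : ℕ) :
    Xc b r i i' = xcQ i i' (fun q : ℚ => b r q) := by
  unfold Xc xcQ
  rw [os_eq hb, os_eq hb]
  simp

theorem xcQ_meas (i i' : ℕ) : Measurable (xcQ i i') := by
  have h1 : Measurable fun v : ℚ → ℝ => v (i' : ℚ) := measurable_pi_apply _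
  have h2 : Measurable fun v : ℚ → ℝ => v (i : ℚ) := measurable_pi_apply _
  exact ((h1.sub h2).add (osQ_meas i)).add (osQ_meas i')

/-- M_XIN -/
theorem xin (xmg : XmgStmt) : XinStmt := by
  intro X _ μ B hB N j hj
  have hp := hB.prob
  obtain ⟨φ, -, hφ⟩ := xmg X μ B hB
  obtain ⟨f, hf⟩ : ∃ f : ℕ → X → ℝ, f = fun (r : ℕ) x =>
    Real.exp (Xc (B x) r (j r) (j (r + 1))) := ⟨_, rfl⟩
  have hfm : ∀ r, Measurable (f r) := fun r => by
    rw [hf]
    exact Real.measurable_exp.comp (hφ r (j r) (j (r + 1)) (hj (Nat.le_succ r))).1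
  have hfi : ∀ r, Integrable (f r) μ := fun r => by
    rw [hf]
    exact (hφ r (j r) (j (r + 1)) (hj (Nat.le_succ r))).2.1
  have hind : iIndepFun f μ := by
    have h1 := (hB.ind.precomp Nat.cast_injective).comp
      (fun (r : ℕ) (v : ℚ → ℝ) => Real.exp (xcQ (j r) (j (r + 1)) v))
      (fun r => Real.measurable_exp.comp (xcQ_meas _ _))
    have h2 : f = fun r : ℕ => (fun (v : ℚ → ℝ) => Real.exp (xcQ (j r) (j (r + 1)) v)) ∘
        (fun (x : X) => fun q : ℚ => B x (r : ℤ) q) := by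
      rw [hf]
      funext r x
      change Real.exp _ = Real.exp _
      rw [xc_eq (hB.cts x)]
    rw [h2]
    exact h1
  have key : ∀ N : ℕ, Integrable (∏ r ∈ range N, f r) μ ∧
      ∫ x, (∏ r ∈ range N, f r) x ∂μ = ∏ r ∈ range N, ∫ x, f r x ∂μ := by
    intro N
    induction N with
    | zero =>
      rw [prod_range_zero, prod_range_zero]
      refine ⟨integrable_const (1 : ℝ), ?_⟩
      simp
    | succ N ih =>
      have h1 := hind.indepFun_prod_range_succ hfm N
      rw [prod_range_succ, prod_range_succ]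
      refine ⟨h1.integrable_mul ih.1 (hfi N), ?_⟩
      have h2 := h1.integral_mul_eq_mul_integral ih.1.aestronglyMeasurable
        (hfi N).aestronglyMeasurable
      rw [← ih.2]
      exact h2
  obtain ⟨k1, k2⟩ := key N
  have h3 : (∏ r ∈ range N, f r) = fun x =>
      ∏ r ∈ range N, Real.exp (Xc (B x) r (j r) (j (r + 1))) := by
    funext x
    rw [Finset.prod_apply, hf]
  rw [h3] at k1 k2
  refine ⟨k1, ?_⟩
  rw [hf] at k2
  exact k2

end

end Pool.Agent.BLP.H1
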