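import Pool.Agent.BLP.StmtsF

/-!
# Squad BLP, row F_FIM: convergence in measure at real points
-/

set_option autoImplicit false

namespace Pool.Agent.BLP.H1

open MeasureTheory ProbabilityTheory Filter Topology Finset
open scoped ENNReal

noncomputable section

/-- approximation of a sequence in measure -/
theorem approx {X : Type} [MeasurableSpace X] {μ : Measure X} {f : ℕ → X → ℝ} {g : X → ℝ}
    {F₁ F₂ F₃ : ℕ → ℕ → X → ℝ} {G : ℕ → X → ℝ}
    (h : ∀ j, ∀ᶠ n in atTop, ∀ᵐ x ∂μ,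
      |f n x - g x| ≤ |F₁ j n x| + |F₂ j n x| + |F₃ j n x| + |G j x|)
    (h1 : ∀ j, TendstoInMeasure μ (F₁ j) atTop (fun _ => 0))
    (h2 : ∀ j, TendstoInMeasure μ (F₂ j) atTop (fun _ => 0))
    (h3 : ∀ j, TendstoInMeasure μ (F₃ j) atTop (fun _ => 0))
    (hG : TendstoInMeasure μ G atTop (fun _ => 0)) : TendstoInMeasure μ f atTop g := by
  rw [tendstoInMeasure_iff_norm]
  intro ε hε
  rw [ENNReal.tendsto_nhds_zero]
  intro δ hδ
  have hδ4 : 0 < δ / 4 := ENNReal.div_pos hδ.ne' (by norm_num)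
  have hε4 : 0 < ε / 4 := by positivity
  rw [tendstoInMeasure_iff_norm] at hG
  obtain ⟨j, hj⟩ := ((ENNReal.tendsto_nhds_zero.1 (hG _ hε4)) _ hδ4).exists
  have k1 := (ENNReal.tendsto_nhds_zero.1 ((tendstoInMeasure_iff_norm.1 (h1 j)) _ hε4)) _ hδ4
  have k2 := (ENNReal.tendsto_nhds_zero.1 ((tendstoInMeasure_iff_norm.1 (h2 j)) _ hε4)) _ hδ4
  have k3 := (ENNReal.tendsto_nhds_zero.1 ((tendstoInMeasure_iff_norm.1 (h3 j)) _ hε4)) _ hδ4
  filter_upwards [h j, k1, k2, k3] with n hn k1 k2 k3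
  have hsub : {x | ε ≤ ‖f n x - g x‖} ≤ᵐ[μ] ((({x | ε / 4 ≤ ‖F₁ j n x - 0‖} ∪
      {x | ε / 4 ≤ ‖F₂ j n x - 0‖}) ∪ {x | ε / 4 ≤ ‖F₃ j n x - 0‖}) ∪
      {x | ε / 4 ≤ ‖G j x - 0‖} : Set X) := by
    filter_upwards [hn] with x hx hx2
    have hx3 : ε ≤ |f n x - g x| := hx2
    by_contra hcon
    have hcon' : ¬ (((ε / 4 ≤ ‖F₁ j n x - 0‖ ∨ ε / 4 ≤ ‖F₂ j n x - 0‖) ∨
      ε / 4 ≤ ‖F₃ j n x - 0‖) ∨ ε / 4 ≤ ‖G j x - 0‖) := hcon
    rw [not_or, not_or, not_or, not_le, not_le, not_le, not_le] at hcon'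
    obtain ⟨⟨⟨c1, c2⟩, c3⟩, c4⟩ := hcon'
    rw [sub_zero, Real.norm_eq_abs] at c1 c2 c3 c4
    linarith
  calc μ {x | ε ≤ ‖f n x - g x‖} ≤ μ ((({x | ε / 4 ≤ ‖F₁ j n x - 0‖} ∪
      {x | ε / 4 ≤ ‖F₂ j n x - 0‖}) ∪ {x | ε / 4 ≤ ‖F₃ j n x - 0‖}) ∪
      {x | ε / 4 ≤ ‖G j x - 0‖} : Set X) := measure_mono_ae hsub
    _ ≤ ((δ / 4 + δ / 4) + δ / 4) + δ / 4 := by
      refine (measure_union_le _ _).trans (add_le_add ?_ hj)
      refine (measure_union_le _ _).trans (add_le_add ?_ k3)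
      exact (measure_union_le _ _).trans (add_le_add k1 k2)
    _ = δ := by
      have e1 : δ / 4 + δ / 4 = δ / 2 := by
        rw [← two_mul, show (4 : ℝ≥0∞) = 2 * 2 by norm_num, ← mul_div_assoc,
          ENNReal.mul_div_mul_left _ _ (by norm_num) (by norm_num)]
      rw [add_assoc, e1, ENNReal.add_halves]

/-- the deterministic estimate -/
theorem sandwich {Dn E An A : ℝ} (h1 : 0 ≤ Dn) (h2 : Dn ≤ An) (h3 : 0 ≤ E) (h4 : E ≤ A) :
    |Dn - E| ≤ |An - A| + A := by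
  rw [abs_le]
  have h5 := abs_nonneg (An - A)
  have h6 := le_abs_self (An - A)
  constructor <;> linarith

/-- F_FIM -/
theorem f_fim : FimStmt := by
  intro inc mea X _ μ B β hB hβ hrat q hq y z
  obtain ⟨m, s⟩ := y
  obtain ⟨m', t⟩ := z
  have hp := hB.prob
  have hq' : (0 : ℝ) < q := by exact_mod_cast hq
  obtain ⟨a, -, ha, hat⟩ := Real.exists_seq_rat_strictMono_tendsto s
  obtain ⟨b, -, hb, hbt⟩ := Real.exists_seq_rat_strictAnti_tendsto s
  obtain ⟨a', -, ha', hat'⟩ := Real.exists_seq_rat_strictMono_tendsto t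
  obtain ⟨b', -, hb', hbt'⟩ := Real.exists_seq_rat_strictAnti_tendsto t
  -- the errors at the rational points
  have hR : ∀ (m m' : ℤ) (s t : ℚ), TendstoInMeasure μ (fun (n : ℕ) x =>
      (L (B x) m s n (n * q) - L (B x) m' t n (n * q)) - β q (m, s) (m', t) x) atTop
      (fun _ => 0) := by
    intro m m' s t
    have h1 := hrat q hq m m' s t
    rw [tendstoInMeasure_iff_norm] at h1 ⊢
    intro ε hε
    have h2 := h1 ε hε
    simpa using h2
  have hmeas : ∀ (m m' : ℤ) (s t : ℚ), AEStronglyMeasurable (β q (m, s) (m', t)) μ := by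
    intro m m' s t
    refine (hrat q hq m m' s t).aestronglyMeasurable (fun n => ?_)
    exact ((mea X μ B hB m s n (n * q)).sub (mea X μ B hB m' t n (n * q))).aestronglyMeasurable
  -- the widths
  obtain ⟨A, hA⟩ : ∃ A : ℤ → ℚ → ℚ → X → ℝ, A = fun (m : ℤ) (s₁ s₂ : ℚ) (x : X) =>
    β q (m, (s₁ : ℝ)) (m, (s₂ : ℝ)) x - (B x m s₂ - B x m s₁) := ⟨_, rfl⟩
  have hAm : ∀ m s₁ s₂, AEStronglyMeasurable (A m s₁ s₂) μ := by
    intro m s₁ s₂
    rw [hA]
    exact (hmeas m m s₁ s₂).sub ((hB.mea m s₂).sub (hB.mea m s₁)).aestronglyMeasurable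
  have hA0 : ∀ (m : ℤ) (s : ℝ) (a b : ℕ → ℚ), Tendsto (fun j => (a j : ℝ)) atTop (𝓝 s) →
      Tendsto (fun j => (b j : ℝ)) atTop (𝓝 s) →
      ∀ᵐ x ∂μ, Tendsto (fun j => A m (a j) (b j) x) atTop (𝓝 0) := by
    intro m s a b ha hb
    filter_upwards [hβ] with x hx
    have h1 := hx.1 q hq m m
    have h2 := hB.cts x m
    have h3 : Tendsto (fun j => ((a j : ℝ), (b j : ℝ))) atTop (𝓝 (s, s)) := ha.prodMk_nhds hb
    have h4 := (h1.tendsto (s, s)).comp h3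
    have h5 := (h2.tendsto s).comp ha
    have h6 := (h2.tendsto s).comp hb
    have h7 := h4.sub (h6.sub h5)
    have h8 : β q (m, s) (m, s) x = 0 := by
      have := hx.2.1 q hq (m, s) (m, s) (m, s)
      linarith
    have h9 : β q (m, (s, s).1) (m, (s, s).2) x - (B x m s - B x m s) = 0 := by
      change β q (m, s) (m, s) x - (B x m s - B x m s) = 0
      rw [h8]
      ring
    rw [h9] at h7
    rw [hA]
    exact h7
  have hG : TendstoInMeasure μ (fun j x => A m (a j) (b j) x + A m' (a' j) (b' j) x) atTop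
      (fun _ => 0) := by
    refine tendstoInMeasure_of_tendsto_ae (fun j => (hAm _ _ _).add (hAm _ _ _)) ?_
    filter_upwards [hA0 m s a b hat hbt, hA0 m' t a' b' hat' hbt'] with x h1 h2
    have h3 := h1.add h2
    rwa [add_zero] at h3
  refine approx (F₁ := fun j n x => (L (B x) m (a j) n (n * q) - L (B x) m (b j) n (n * q)) -
      β q (m, (a j : ℝ)) (m, (b j : ℝ)) x)
    (F₂ := fun j n x => (L (B x) m' (a' j) n (n * q) - L (B x) m' (b' j) n (n * q)) -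
      β q (m', (a' j : ℝ)) (m', (b' j : ℝ)) x)
    (F₃ := fun j n x => (L (B x) m (a j) n (n * q) - L (B x) m' (a' j) n (n * q)) -
      β q (m, (a j : ℝ)) (m', (a' j : ℝ)) x)
    (G := fun j x => A m (a j) (b j) x + A m' (a' j) (b' j) x) ?_
    (fun j => hR _ _ _ _) (fun j => hR _ _ _ _) (fun j => hR _ _ _ _) hG
  intro j
  have hev : ∀ᶠ n : ℕ in atTop, m ≤ (n : ℤ) ∧ m' ≤ (n : ℤ) ∧ (b j : ℝ) ≤ n * q ∧
      (b' j : ℝ) ≤ n * q := by
    have h1 : Tendsto (fun n : ℕ => (n : ℝ) * q) atTop atTop :=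
      tendsto_natCast_atTop_atTop.atTop_mul_const hq'
    have h2 : Tendsto (fun n : ℕ => (n : ℤ)) atTop atTop := tendsto_natCast_atTop_atTop
    filter_upwards [h2.eventually_ge_atTop m, h2.eventually_ge_atTop m',
      h1.eventually_ge_atTop (b j : ℝ), h1.eventually_ge_atTop (b' j : ℝ)] with n k1 k2 k3 k4
    exact ⟨k1, k2, k3, k4⟩
  filter_upwards [hev] with n hn
  obtain ⟨k1, k2, k3, k4⟩ := hn
  filter_upwards [hβ] with x hx
  have key : ∀ (m : ℤ) (s : ℝ) (s₁ s₂ : ℚ), m ≤ (n : ℤ) → (s₁ : ℝ) ≤ s → s ≤ s₂ →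
      (s₂ : ℝ) ≤ n * q →
      0 ≤ A m s₁ s₂ x ∧
      |L (B x) m s₁ n (n * q) - L (B x) m s n (n * q) - β q (m, (s₁ : ℝ)) (m, s) x| ≤
        |(L (B x) m s₁ n (n * q) - L (B x) m s₂ n (n * q)) -
          β q (m, (s₁ : ℝ)) (m, (s₂ : ℝ)) x| + A m s₁ s₂ x := by
    intro m s s₁ s₂ hm hs₁ hs₂ hs₃
    have i1 := (inc (B x) (hB.cts x) m n hm).1 s₁ s (n * q) hs₁ (hs₂.trans hs₃)
    have i2 := (inc (B x) (hB.cts x) m n hm).1 s s₂ (n * q) hs₂ hs₃
    have j1 := hx.2.2.1 q hq m s₁ s hs₁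
    have j2 := hx.2.2.1 q hq m s s₂ hs₂
    have j3 := hx.2.1 q hq (m, (s₁ : ℝ)) (m, s) (m, (s₂ : ℝ))
    rw [hA]
    dsimp only at j1 j2 j3 ⊢
    refine ⟨by linarith, ?_⟩
    have k := sandwich (Dn := L (B x) m s₁ n (n * q) - L (B x) m s n (n * q) -
        (B x m s - B x m s₁))
      (E := β q (m, (s₁ : ℝ)) (m, s) x - (B x m s - B x m s₁))
      (An := L (B x) m s₁ n (n * q) - L (B x) m s₂ n (n * q) - (B x m s₂ - B x m s₁))
      (A := β q (m, (s₁ : ℝ)) (m, (s₂ : ℝ)) x - (B x m s₂ - B x m s₁))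
      (by linarith) (by linarith) (by linarith) (by linarith)
    have e1 : L (B x) m s₁ n (n * q) - L (B x) m s n (n * q) - (B x m s - B x m s₁) -
        (β q (m, (s₁ : ℝ)) (m, s) x - (B x m s - B x m s₁)) =
        L (B x) m s₁ n (n * q) - L (B x) m s n (n * q) - β q (m, (s₁ : ℝ)) (m, s) x := by ring
    have e2 : L (B x) m s₁ n (n * q) - L (B x) m s₂ n (n * q) - (B x m s₂ - B x m s₁) -
        (β q (m, (s₁ : ℝ)) (m, (s₂ : ℝ)) x - (B x m s₂ - B x m s₁)) =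
        (L (B x) m s₁ n (n * q) - L (B x) m s₂ n (n * q)) -
          β q (m, (s₁ : ℝ)) (m, (s₂ : ℝ)) x := by ring
    rw [e1, e2] at k
    exact k
  obtain ⟨c1, c2⟩ := key m s (a j) (b j) k1 (ha j).le (hb j).le k3
  obtain ⟨c3, c4⟩ := key m' t (a' j) (b' j) k2 (ha' j).le (hb' j).le k4
  have j1 := hx.2.1 q hq (m, (a j : ℝ)) (m, s) (m', t)
  have j2 := hx.2.1 q hq (m, (a j : ℝ)) (m', (a' j : ℝ)) (m', t)
  dsimp only at j1 j2 ⊢
  have e : L (B x) m s n (n * q) - L (B x) m' t n (n * q) - β q (m, s) (m', t) x =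
      -(L (B x) m (a j) n (n * q) - L (B x) m s n (n * q) - β q (m, (a j : ℝ)) (m, s) x) +
      ((L (B x) m (a j) n (n * q) - L (B x) m' (a' j) n (n * q)) -
        β q (m, (a j : ℝ)) (m', (a' j : ℝ)) x) +
      (L (B x) m' (a' j) n (n * q) - L (B x) m' t n (n * q) -
        β q (m', (a' j : ℝ)) (m', t) x) := by
    linarith
  rw [e, abs_of_nonneg (add_nonneg c1 c3)]
  refine (abs_add_le _ _).trans ?_
  have t1 := abs_add_le (-(L (B x) m (a j) n (n * q) - L (B x) m s n (n * q) -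
      β q (m, (a j : ℝ)) (m, s) x))
    ((L (B x) m (a j) n (n * q) - L (B x) m' (a' j) n (n * q)) -
        β q (m, (a j : ℝ)) (m', (a' j : ℝ)) x)
  rw [abs_neg] at t1
  linarith

end

end Pool.Agent.BLP.H1
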